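import Mathlib

/-!
# Colourings of `r`-subsets encoded by colourings of `s`-subsets
-/

namespace Q123.EC

open Finset

/-- `d` is constant on the `s`-element subsets of `S`. -/
def Homog {V C : Type*} (s : ℕ) (d : Finset V → C) (S : Finset V) : Prop :=
  ∀ T T' : Finset V, T ⊆ S → T' ⊆ S → T.card = s → T'.card = s → d T = d T'

/-- Every colouring of the `s`-element subsets of `N` points with `q` colours has a homogeneous set
of `k` points. -/
def Ramsey (N s q k : ℕ) : Prop :=
  ∀ d : Finset (Fin N) → Fin q, ∃ S : Finset (Fin N), S.card = k ∧ Homog s d S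

/-- The two-colouring `c` of the `r`-element subsets of `N` points is encoded by a colouring `d` of
the `s`-element subsets with `q` colours: the colour of an `r`-element set depends only on the
isomorphism type of `d` on it. -/
def Encoded {N : ℕ} (r s q : ℕ) (c : Finset (Fin N) → Bool) : Prop :=
  ∃ d : Finset (Fin N) → Fin q, ∀ A B : Finset (Fin N), A.card = r → B.card = r →
    (∃ σ : Fin N → Fin N, Set.InjOn σ A ∧ A.image σ = B ∧
      ∀ T ⊆ A, T.card = s → d (T.image σ) = d T) → c A = c B

/-- The two-colouring `c` of the `r`-element subsets of the ordered set of `N` points is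
order-encoded by a colouring `d` of the `s`-element subsets with `q` colours: the colour of an
`r`-element set depends only on the pattern of `d` on it, that is the colours of its `s`-element
subsets listed according to the positions in the `r`-element set (any rule is allowed). -/
def OrderEncoded {N : ℕ} (r s q : ℕ) (c : Finset (Fin N) → Bool) : Prop :=
  ∃ d : Finset (Fin N) → Fin q, ∀ A B : Finset (Fin N), A.card = r → B.card = r →
    (∃ σ : Fin N → Fin N, StrictMonoOn σ A ∧ A.image σ = B ∧
      ∀ T ⊆ A, T.card = s → d (T.image σ) = d T) → c A = c B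

theorem Encoded.orderEncoded {N r s q : ℕ} {c : Finset (Fin N) → Bool} (h : Encoded r s q c) :
    OrderEncoded r s q c := by
  obtain ⟨d, hd⟩ := h
  refine ⟨d, fun A B hA hB hσ => hd A B hA hB ?_⟩
  obtain ⟨σ, h1, h2, h3⟩ := hσ
  exact ⟨σ, h1.injOn, h2, h3⟩

/-- Two sets of the same size are matched by an increasing map. -/
theorem exists_strictMonoOn {N r : ℕ} (A B : Finset (Fin N)) (hA : A.card = r) (hB : B.card = r) :
    ∃ σ : Fin N → Fin N, StrictMonoOn σ A ∧ A.image σ = B := by
  classical
  let σ : Fin N → Fin N := fun x =>
    if h : x ∈ A then B.orderEmbOfFin hB ((A.orderIsoOfFin hA).symm ⟨x, h⟩) else x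
  have hσ : ∀ x (h : x ∈ A), σ x = B.orderEmbOfFin hB ((A.orderIsoOfFin hA).symm ⟨x, h⟩) := by
    intro x h
    simp only [σ, h, dif_pos]
  have hmono : StrictMonoOn σ A := by
    intro x hx y hy hxy
    rw [hσ x hx, hσ y hy]
    apply (B.orderEmbOfFin hB).strictMono
    apply (A.orderIsoOfFin hA).symm.strictMono
    exact hxy
  refine ⟨σ, hmono, ?_⟩
  apply eq_of_subset_of_card_le
  · intro y hy
    rw [mem_image] at hy
    obtain ⟨x, hx, rfl⟩ := hy
    rw [hσ x hx]
    exact orderEmbOfFin_mem B hB _
  · rw [card_image_of_injOn hmono.injOn, hA, hB]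

theorem homog_of_orderEncoded {N r s q : ℕ} {c : Finset (Fin N) → Bool}
    (hc : OrderEncoded r s q c) (k : ℕ) (h : Ramsey N s q k) :
    ∃ S : Finset (Fin N), S.card = k ∧ Homog r c S := by
  classical
  obtain ⟨d, hd⟩ := hc
  obtain ⟨S, hS, hhom⟩ := h d
  refine ⟨S, hS, ?_⟩
  intro A B hA hB hAr hBr
  obtain ⟨σ, h1, h2⟩ := exists_strictMonoOn A B hAr hBr
  refine hd A B hAr hBr ⟨σ, h1, h2, ?_⟩
  intro T hT hTs
  have hTi : (T.image σ).card = s := by
    rw [card_image_of_injOn (h1.injOn.mono (by exact_mod_cast hT)), hTs]
  apply hhom _ _ _ (hT.trans hA) hTi hTs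
  refine subset_trans ?_ hB
  rw [← h2]
  exact image_subset_image hT

/-- If `d` is constant on the `s`-element subsets of every `r`-element subset of `S`, `s < r ≤ |S|`,
then `d` is constant on the `s`-element subsets of `S`. -/
theorem homog_of_local {V C : Type*} [DecidableEq V] {r s : ℕ} (hsr : s < r)
    (d : Finset V → C) (S : Finset V) (hS : r ≤ S.card)
    (h : ∀ A ⊆ S, A.card = r → Homog s d A) : Homog s d S := by
  have key : ∀ n : ℕ, ∀ T T' : Finset V, T ⊆ S → T' ⊆ S → T.card = s → T'.card = s →
      (T \ T').card = n → d T = d T' := by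
    intro n
    induction n with
    | zero =>
      intro T T' hT hT' h1 h2 h3
      have h4 : T ⊆ T' := by
        rw [← sdiff_eq_empty_iff_subset]
        exact card_eq_zero.mp h3
      rw [eq_of_subset_of_card_le h4 (by omega)]
    | succ n ih =>
      intro T T' hT hT' h1 h2 h3
      have hne : (T \ T').Nonempty := card_pos.mp (by omega)
      obtain ⟨a, ha⟩ := hne
      rw [mem_sdiff] at ha
      have hne' : (T' \ T).Nonempty := by
        apply card_pos.mp
        have e1 := card_sdiff_add_card_inter T T'
        have e2 := card_sdiff_add_card_inter T' T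
        rw [inter_comm] at e2
        omega
      obtain ⟨b, hb⟩ := hne'
      rw [mem_sdiff] at hb
      have hab : a ≠ b := by
        rintro rfl
        exact hb.2 ha.1
      -- the exchanged set
      have hc1 : (insert b (T.erase a)).card = s := by
        rw [card_insert_of_notMem (by simp [hb.2]), card_erase_of_mem ha.1, h1]
        have : 0 < T.card := card_pos.mpr ⟨a, ha.1⟩
        omega
      have hsub1 : insert b (T.erase a) ⊆ S :=
        insert_subset (hT' hb.1) ((erase_subset _ _).trans hT)
      have hstep : d T = d (insert b (T.erase a)) := by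
        have hU : insert b T ⊆ S := insert_subset (hT' hb.1) hT
        have hUc : (insert b T).card ≤ r := by
          rw [card_insert_of_notMem hb.2]
          omega
        obtain ⟨A, hUA, hAS, hAr⟩ := exists_subsuperset_card_eq hU hUc hS
        apply h A hAS hAr _ _ _ _ h1 hc1
        · exact (subset_insert _ _).trans hUA
        · exact (insert_subset_insert _ (erase_subset _ _)).trans hUA
      rw [hstep]
      apply ih _ _ hsub1 hT' hc1 h2
      have e : insert b (T.erase a) \ T' = (T \ T').erase a := by
        ext x
        simp only [mem_sdiff, mem_insert, mem_erase]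
        constructor
        · rintro ⟨hx | hx, hx'⟩
          · exact absurd (hx ▸ hb.1) hx'
          · exact ⟨hx.1, hx.2, hx'⟩
        · rintro ⟨h4, h5, h6⟩
          exact ⟨Or.inr ⟨h4, h5⟩, h6⟩
      rw [e, card_erase_of_mem (mem_sdiff.mpr ha), h3]
      omega
  intro T T' hT hT' h1 h2
  exact key _ T T' hT hT' h1 h2 rfl

/-- Transfer of the Ramsey property to a set of `k` points. -/
theorem Ramsey.on {k s q r N : ℕ} (h : Ramsey k s q r) (d : Finset (Fin N) → Fin q)
    (S : Finset (Fin N)) (hS : S.card = k) :
    ∃ A ⊆ S, A.card = r ∧ Homog s d A := by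
  classical
  let e : Fin k ↪ Fin N := (S.orderEmbOfFin hS).toEmbedding
  obtain ⟨A, hA, hh⟩ := h (fun T => d (T.map e))
  refine ⟨A.map e, ?_, by rw [card_map, hA], ?_⟩
  · intro x hx
    rw [mem_map] at hx
    obtain ⟨y, _, rfl⟩ := hx
    exact orderEmbOfFin_mem S hS _
  · intro T T' hT hT' h1 h2
    have hpre : ∀ T : Finset (Fin N), T ⊆ A.map e → ∃ U ⊆ A, T = U.map e := by
      intro T hT
      obtain ⟨U, hU, hU'⟩ := (subset_map_iff).mp hT
      exact ⟨U, hU, hU'⟩
    obtain ⟨U, hU, rfl⟩ := hpre T hT
    obtain ⟨U', hU', rfl⟩ := hpre T' hT'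
    exact hh U U' hU hU' (by simpa using h1) (by simpa using h2)

/-- From the encoded two-colourings back to the `q`-colourings of `s`-subsets. -/
theorem ramsey_of_encoded {N r s q k : ℕ} (hsr : s < r) (hk : Ramsey k s q r) (hrk : r ≤ k)
    (h : ∀ c : Finset (Fin N) → Bool, Encoded r s q c →
      ∃ S : Finset (Fin N), S.card = k ∧ Homog r c S) : Ramsey N s q k := by
  classical
  intro d
  obtain ⟨S, hS, hhom⟩ := h (fun A => decide (Homog s d A)) ⟨d, by
    intro A B _ _ hσ
    obtain ⟨σ, h1, h2, h3⟩ := hσ
    have : Homog s d A ↔ Homog s d B := by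
      constructor
      · intro hA T T' hT hT' hc hc'
        have hpre : ∀ T : Finset (Fin N), T ⊆ B → T.card = s → ∃ U ⊆ A, U.card = s ∧
            U.image σ = T := by
          intro T hT hTc
          rw [← h2] at hT
          obtain ⟨U, hU, hU'⟩ := subset_image_iff.mp hT
          refine ⟨U, by exact_mod_cast hU, ?_, hU'⟩
          rw [← hTc, ← hU', card_image_of_injOn (h1.mono (by exact_mod_cast hU))]
        obtain ⟨U, hU, hUc, rfl⟩ := hpre T hT hc
        obtain ⟨U', hU', hUc', rfl⟩ := hpre T' hT' hc'
        rw [h3 U hU hUc, h3 U' hU' hUc']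
        exact hA U U' hU hU' hUc hUc'
      · intro hB T T' hT hT' hc hc'
        rw [← h3 T hT hc, ← h3 T' hT' hc']
        apply hB
        · rw [← h2]
          exact image_subset_image hT
        · rw [← h2]
          exact image_subset_image hT'
        · rw [card_image_of_injOn (h1.mono (by exact_mod_cast hT)), hc]
        · rw [card_image_of_injOn (h1.mono (by exact_mod_cast hT')), hc']
    simp only [this]⟩
  obtain ⟨A, hAS, hAr, hAh⟩ := hk.on d S hS
  refine ⟨S, hS, homog_of_local hsr d S (by omega) ?_⟩
  intro B hBS hBr
  have := hhom A B hAS hBS hAr hBr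
  simp only [hAh, decide_true] at this
  exact of_decide_eq_true this.symm

/-- If every `q`-colouring of the `s`-subsets of `k` points has a homogeneous set of `r` points, then
`r ≤ k` (if there is a colour). -/
theorem le_of_ramsey {k s q r : ℕ} (hq : 0 < q) (hk : Ramsey k s q r) : r ≤ k := by
  obtain ⟨S, hS, _⟩ := hk (fun _ => ⟨0, hq⟩)
  rw [← hS]
  simpa using card_le_univ S

/-- The multicolour Ramsey bound for pairs: sizes `t i + 1` for the colours `i`. -/
theorem ramsey_pairs_aux {N q : ℕ} (hq : 2 ≤ q) (d : Finset (Fin N) → Fin q) :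
    ∀ n : ℕ, ∀ t : Fin q → ℕ, (∑ i, t i = n) → ∀ V : Finset (Fin N), q ^ n ≤ V.card →
      ∃ i, ∃ S ⊆ V, S.card = t i + 1 ∧ ∀ T ⊆ S, T.card = 2 → d T = i := by
  classical
  intro n
  induction n with
  | zero =>
    intro t ht V hV
    have hV1 : 0 < V.card := by simpa using hV
    obtain ⟨x, hx⟩ := card_pos.mp hV1
    refine ⟨⟨0, by omega⟩, {x}, by simpa using hx, ?_, ?_⟩
    · have : t ⟨0, by omega⟩ = 0 := by
        have := Finset.single_le_sum (f := t) (fun i _ => Nat.zero_le _)
          (mem_univ (⟨0, by omega⟩ : Fin q))
        omega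
      rw [this]
      simp
    · intro T hT hT2
      have := card_le_card hT
      rw [hT2] at this
      simp at this
  | succ n ih =>
    intro t ht V hV
    by_cases hz : ∃ i, t i = 0
    · obtain ⟨i, hi⟩ := hz
      have hV1 : 0 < V.card := lt_of_lt_of_le (by positivity) hV
      obtain ⟨x, hx⟩ := card_pos.mp hV1
      refine ⟨i, {x}, by simpa using hx, by simp [hi], ?_⟩
      intro T hT hT2
      have := card_le_card hT
      rw [hT2] at this
      simp at this
    · push Not at hz
      have hV1 : 0 < V.card := lt_of_lt_of_le (by positivity) hV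
      obtain ⟨x, hx⟩ := card_pos.mp hV1
      -- a large colour class at `x`
      have hbig : ∃ i : Fin q, q ^ n ≤ ((V.erase x).filter fun y => d {x, y} = i).card := by
        by_contra hcon
        push Not at hcon
        have h1 : (V.erase x).card = ∑ i : Fin q,
            ((V.erase x).filter fun y => d {x, y} = i).card := by
          apply card_eq_sum_card_fiberwise
          intro y _
          exact mem_coe.mpr (mem_univ _)
        have h2 : ∑ i : Fin q, ((V.erase x).filter fun y => d {x, y} = i).card
            ≤ ∑ _i : Fin q, (q ^ n - 1) := sum_le_sum (fun i _ => by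
              have := hcon i
              omega)
        rw [sum_const, card_univ, Fintype.card_fin, smul_eq_mul] at h2
        rw [card_erase_of_mem hx] at h1
        have h3 : q * (q ^ n - 1) = q ^ (n + 1) - q := by
          rw [Nat.mul_sub, pow_succ, mul_comm q (q ^ n), mul_one]
        have h4 : q ≤ q ^ (n + 1) := by
          calc q = q ^ 1 := (pow_one q).symm
            _ ≤ q ^ (n + 1) := Nat.pow_le_pow_right (by omega) (by omega)
        omega
      obtain ⟨i, hi⟩ := hbig
      have hti : 0 < t i := Nat.pos_of_ne_zero (hz i)
      obtain ⟨j, S, hSV, hSc, hSd⟩ := ih (Function.update t i (t i - 1)) (by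
        rw [sum_update_of_mem (mem_univ i)]
        have := Finset.add_sum_erase univ t (mem_univ i)
        rw [← sdiff_singleton_eq_erase] at this
        omega) _ hi
      by_cases hji : j = i
      · subst hji
        have hxS : x ∉ S := by
          intro hxS
          have := hSV hxS
          simp at this
        rw [Function.update_self] at hSc
        refine ⟨j, insert x S, ?_, ?_, ?_⟩
        · apply insert_subset hx
          intro y hy
          have := hSV hy
          rw [mem_filter, mem_erase] at this
          exact this.1.2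
        · rw [card_insert_of_notMem hxS, hSc]
          omega
        · intro T hT hT2
          by_cases hxT : x ∈ T
          · obtain ⟨y, hy⟩ : ∃ y, T.erase x = {y} := by
              apply card_eq_one.mp
              rw [card_erase_of_mem hxT, hT2]
            have hTe : T = {x, y} := by
              rw [← insert_erase hxT, hy]
            have hyT : y ∈ T.erase x := by
              rw [hy]
              exact mem_singleton_self y
            rw [mem_erase] at hyT
            have hyS : y ∈ S := (mem_insert.mp (hT hyT.2)).resolve_left hyT.1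
            have := hSV hyS
            rw [mem_filter] at this
            rw [hTe]
            exact this.2
          · apply hSd T _ hT2
            intro y hy
            exact (mem_insert.mp (hT hy)).resolve_left (fun h => hxT (h ▸ hy))
      · refine ⟨j, S, ?_, ?_, hSd⟩
        · intro y hy
          have := hSV hy
          rw [mem_filter, mem_erase] at this
          exact this.1.2
        · rw [hSc, Function.update_of_ne hji]

theorem ramsey_pairs {N q k : ℕ} (hq : 2 ≤ q) (hk : 1 ≤ k) (hN : q ^ (q * (k - 1)) ≤ N) :
    Ramsey N 2 q k := by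
  intro d
  obtain ⟨i, S, _, hSc, hSd⟩ := ramsey_pairs_aux hq d (q * (k - 1)) (fun _ => k - 1) (by simp)
    univ (by simpa using hN)
  refine ⟨S, by omega, ?_⟩
  intro T T' hT hT' h1 h2
  rw [hSd T hT h1, hSd T' hT' h2]

end Q123.EC
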